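import Pool.Agent.helper41.Cubic.Kill

/-!
A smooth Riemannian metric on the 2-torus, conformal to the flat hexagonal metric, with a cubic
integral in the velocities and without Killing vector fields.

The torus is `ℝ² / ℤ²`; functions on it are the functions `f : ℝ → ℝ → ℝ` of period one in both
variables. The metric is `E dx² + 2 F dx dy + G dy²`.
-/

set_option autoImplicit false

namespace Pool.Agent.Results.MP_43750c_an.VelocityForm

open Function Pool.Agent.helper41.Cubic

/-- A smooth function on the torus `ℝ² / ℤ²`. -/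
def SmoothPeriodic (f : ℝ → ℝ → ℝ) : Prop :=
  ContDiff ℝ ((⊤ : ℕ∞) : WithTop ℕ∞) (Function.uncurry f) ∧
    ∀ x y : ℝ, f (x + 1) y = f x y ∧ f x (y + 1) = f x y

/-- A smooth Riemannian metric `E dx² + 2 F dx dy + G dy²` on the torus. -/
def IsMetric (E F G : ℝ → ℝ → ℝ) : Prop :=
  SmoothPeriodic E ∧ SmoothPeriodic F ∧ SmoothPeriodic G ∧
    ∀ x y : ℝ, 0 < E x y ∧ 0 < E x y * G x y - F x y ^ 2

/-- The curve `(x(t), y(t))` with velocity `(u(t), v(t))`, `a < t < b`, is a geodesic: it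
satisfies the Euler-Lagrange equations of `(E u² + 2 F u v + G v²) / 2`. -/
def IsGeodesic (E F G : ℝ → ℝ → ℝ) (a b : ℝ) (x y u v : ℝ → ℝ) : Prop :=
  ∀ t ∈ Set.Ioo a b, HasDerivAt x (u t) t ∧ HasDerivAt y (v t) t ∧
    HasDerivAt (fun s => E (x s) (y s) * u s + F (x s) (y s) * v s)
      ((deriv (fun z => E z (y t)) (x t) * u t ^ 2 + 2 * deriv (fun z => F z (y t)) (x t) * u t * v t
        + deriv (fun z => G z (y t)) (x t) * v t ^ 2) / 2) t ∧
    HasDerivAt (fun s => F (x s) (y s) * u s + G (x s) (y s) * v s)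
      ((deriv (fun z => E (x t) z) (y t) * u t ^ 2 + 2 * deriv (fun z => F (x t) z) (y t) * u t * v t
        + deriv (fun z => G (x t) z) (y t) * v t ^ 2) / 2) t

/-- The vector field `X ∂x + Y ∂y` is a Killing field: the Lie derivative of the metric along it
vanishes. -/
def IsKilling (E F G X Y : ℝ → ℝ → ℝ) : Prop :=
  SmoothPeriodic X ∧ SmoothPeriodic Y ∧ ∀ x y : ℝ,
    X x y * deriv (fun z => E z y) x + Y x y * deriv (fun z => E x z) y
      + 2 * (E x y * deriv (fun z => X z y) x + F x y * deriv (fun z => Y z y) x) = 0 ∧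
    X x y * deriv (fun z => F z y) x + Y x y * deriv (fun z => F x z) y
      + (E x y * deriv (fun z => X x z) y + F x y * deriv (fun z => Y x z) y)
      + (F x y * deriv (fun z => X z y) x + G x y * deriv (fun z => Y z y) x) = 0 ∧
    X x y * deriv (fun z => G z y) x + Y x y * deriv (fun z => G x z) y
      + 2 * (F x y * deriv (fun z => X x z) y + G x y * deriv (fun z => Y x z) y) = 0

/-- There are a metric on the torus, conformal to the flat hexagonal metric
`dx² + dx dy + dy²`, and a homogeneous cubic polynomial `A u³ + B u² v + C u v² + D v³` in the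
velocities with smooth coefficients on the torus, not the zero polynomial over any point, which is
constant along every geodesic, while the metric has no Killing field except zero. -/
theorem result : ∃ lam A B C D : ℝ → ℝ → ℝ,
    IsMetric lam (fun x y => lam x y / 2) lam ∧
    SmoothPeriodic A ∧ SmoothPeriodic B ∧ SmoothPeriodic C ∧ SmoothPeriodic D ∧
    (∀ x y : ℝ, ¬ (A x y = 0 ∧ B x y = 0 ∧ C x y = 0 ∧ D x y = 0)) ∧
    (∀ (a b : ℝ) (x y u v : ℝ → ℝ),
      IsGeodesic lam (fun x y => lam x y / 2) lam a b x y u v →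
      ∀ s ∈ Set.Ioo a b, ∀ t ∈ Set.Ioo a b,
        A (x s) (y s) * u s ^ 3 + B (x s) (y s) * u s ^ 2 * v s
          + C (x s) (y s) * u s * v s ^ 2 + D (x s) (y s) * v s ^ 3
        = A (x t) (y t) * u t ^ 3 + B (x t) (y t) * u t ^ 2 * v t
          + C (x t) (y t) * u t * v t ^ 2 + D (x t) (y t) * v t ^ 3) ∧
    (∀ X Y : ℝ → ℝ → ℝ, IsKilling lam (fun x y => lam x y / 2) lam X Y →
      ∀ x y : ℝ, X x y = 0 ∧ Y x y = 0) := by
  obtain ⟨g, hg⟩ := exists_slope
  have cE : ContDiff ℝ ((⊤ : ℕ∞) : WithTop ℕ∞) (EF g) :=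
    contDiff_iff_contDiffAt.2 fun z => (good_EF hg z).1
  set K : ℝ → ℝ → ℝ := fun x y => (EF g (x, y)).1 with hK
  set M : ℝ → ℝ → ℝ := fun x y => (EF g (x, y)).2.1 with hM
  set N : ℝ → ℝ → ℝ := fun x y => (EF g (x, y)).2.2 with hN
  have cK : ContDiff ℝ ((⊤ : ℕ∞) : WithTop ℕ∞) (uncurry K) := contDiff_fst.comp cE
  have cM : ContDiff ℝ ((⊤ : ℕ∞) : WithTop ℕ∞) (uncurry M) :=
    contDiff_fst.comp (contDiff_snd.comp cE)
  have cN : ContDiff ℝ ((⊤ : ℕ∞) : WithTop ℕ∞) (uncurry N) :=
    contDiff_snd.comp (contDiff_snd.comp cE)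
  have K1 : ∀ x y, HasDerivAt (fun t => K t y) (D1 K x y) x :=
    deriv_fst_of_contDiff top_ne_zero' cK
  have K2 : ∀ x y, HasDerivAt (fun t => K x t) (D2 K x y) y :=
    deriv_snd_of_contDiff top_ne_zero' cK
  have M1 : ∀ x y, HasDerivAt (fun t => M t y) (D1 M x y) x :=
    deriv_fst_of_contDiff top_ne_zero' cM
  have M2 : ∀ x y, HasDerivAt (fun t => M x t) (D2 M x y) y :=
    deriv_snd_of_contDiff top_ne_zero' cM
  have N1 : ∀ x y, HasDerivAt (fun t => N t y) (D1 N x y) x :=
    deriv_fst_of_contDiff top_ne_zero' cN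
  have N2 : ∀ x y, HasDerivAt (fun t => N x t) (D2 N x y) y :=
    deriv_snd_of_contDiff top_ne_zero' cN
  have hd : ∀ z, HasFDerivAt (EF g) (fderiv ℝ (EF g) z) z := fun z =>
    (cE.differentiable (by simp) z).hasFDerivAt
  have pK : ∀ x y : ℝ, K (x + 1) y = K x y ∧ K x (y + 1) = K x y := fun x y =>
    ⟨by simp only [hK, EF_add_fst], by simp only [hK, EF_add_snd]⟩
  have pM : ∀ x y : ℝ, M (x + 1) y = M x y ∧ M x (y + 1) = M x y := fun x y =>
    ⟨by simp only [hM, EF_add_fst], by simp only [hM, EF_add_snd]⟩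
  have pN : ∀ x y : ℝ, N (x + 1) y = N x y ∧ N x (y + 1) = N x y := fun x y =>
    ⟨by simp only [hN, EF_add_fst], by simp only [hN, EF_add_snd]⟩
  have Kpos : ∀ x y, 0 < K x y := fun x y => EF_pos hg (x, y)
  -- identification of derivatives
  have fK : ∀ z, fderiv ℝ (uncurry K) z = (ContinuousLinearMap.fst ℝ ℝ (ℝ × ℝ)).comp
      (fderiv ℝ (EF g) z) := fun z =>
    ((ContinuousLinearMap.fst ℝ ℝ (ℝ × ℝ)).hasFDerivAt.comp z (hd z)).fderiv
  have fM : ∀ z, fderiv ℝ (uncurry M) z = ((ContinuousLinearMap.fst ℝ ℝ ℝ).comp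
      (ContinuousLinearMap.snd ℝ ℝ (ℝ × ℝ))).comp (fderiv ℝ (EF g) z) := fun z =>
    (((ContinuousLinearMap.fst ℝ ℝ ℝ).comp
      (ContinuousLinearMap.snd ℝ ℝ (ℝ × ℝ))).hasFDerivAt.comp z (hd z)).fderiv
  have fN : ∀ z, fderiv ℝ (uncurry N) z = ((ContinuousLinearMap.snd ℝ ℝ ℝ).comp
      (ContinuousLinearMap.snd ℝ ℝ (ℝ × ℝ))).comp (fderiv ℝ (EF g) z) := fun z =>
    (((ContinuousLinearMap.snd ℝ ℝ ℝ).comp
      (ContinuousLinearMap.snd ℝ ℝ (ℝ × ℝ))).hasFDerivAt.comp z (hd z)).fderiv
  have pde : ∀ x y p q : ℝ,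
      K x y * ((2 * p - q) * (D1 M x y * p + D1 N x y * q) +
        (2 * q - p) * (D2 M x y * p + D2 N x y * q)) -
      D1 K x y * ((2 * p * q - q ^ 2) + M x y * (p ^ 2 - p * q + q ^ 2) +
        (M x y * p + N x y * q) * (2 * p - q)) -
      D2 K x y * ((p ^ 2 - 2 * p * q) + N x y * (p ^ 2 - p * q + q ^ 2) +
        (M x y * p + N x y * q) * (2 * q - p)) = 0 := by
    intro x y p q
    have h := (good_EF hg (x, y)).2 p q
    have a1 : D1 K x y = (fderiv ℝ (EF g) (x, y) (1, 0)).1 := by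
      unfold D1; rw [fK]; rfl
    have a2 : D2 K x y = (fderiv ℝ (EF g) (x, y) (0, 1)).1 := by
      unfold D2; rw [fK]; rfl
    have a3 : D1 M x y = (fderiv ℝ (EF g) (x, y) (1, 0)).2.1 := by
      unfold D1; rw [fM]; rfl
    have a4 : D2 M x y = (fderiv ℝ (EF g) (x, y) (0, 1)).2.1 := by
      unfold D2; rw [fM]; rfl
    have a5 : D1 N x y = (fderiv ℝ (EF g) (x, y) (1, 0)).2.2 := by
      unfold D1; rw [fN]; rfl
    have a6 : D2 N x y = (fderiv ℝ (EF g) (x, y) (0, 1)).2.2 := by
      unfold D2; rw [fN]; rfl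
    rw [a1, a2, a3, a4, a5, a6]
    exact h
  set lam : ℝ → ℝ → ℝ := fun x y => (K x y)⁻¹ with hlam
  have cl : ContDiff ℝ ((⊤ : ℕ∞) : WithTop ℕ∞) (uncurry lam) :=
    cK.inv fun z => (Kpos z.1 z.2).ne'
  have pl : ∀ x y : ℝ, lam (x + 1) y = lam x y ∧ lam x (y + 1) = lam x y := fun x y =>
    ⟨by simp only [hlam, (pK x y).1], by simp only [hlam, (pK x y).2]⟩
  have lpos : ∀ x y, 0 < lam x y := fun x y => inv_pos.mpr (Kpos x y)
  have L1 : ∀ x y, HasDerivAt (fun t => lam t y) (-D1 K x y / K x y ^ 2) x := fun x y =>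
    (K1 x y).inv (Kpos x y).ne'
  have L2 : ∀ x y, HasDerivAt (fun t => lam x t) (-D2 K x y / K x y ^ 2) y := fun x y =>
    (K2 x y).inv (Kpos x y).ne'
  have L1h : ∀ x y, HasDerivAt (fun t => lam t y / 2) (-D1 K x y / K x y ^ 2 / 2) x := fun x y =>
    (L1 x y).div_const 2
  have L2h : ∀ x y, HasDerivAt (fun t => lam x t / 2) (-D2 K x y / K x y ^ 2 / 2) y := fun x y =>
    (L2 x y).div_const 2
  have chain : ∀ f : ℝ → ℝ → ℝ, ContDiff ℝ ((⊤ : ℕ∞) : WithTop ℕ∞) (uncurry f) →
      ∀ (x y : ℝ → ℝ) (u v t : ℝ), HasDerivAt x u t → HasDerivAt y v t →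
      HasDerivAt (fun s => f (x s) (y s)) (D1 f (x t) (y t) * u + D2 f (x t) (y t) * v) t := by
    intro f cf x y u v t hx hy
    have h1 := (cf.differentiable top_ne_zero' (x t, y t)).hasFDerivAt
    have h2 : HasDerivAt (fun s => (x s, y s)) (u, v) t := hx.prodMk hy
    have h3 := h1.comp_hasDerivAt t h2
    have e : fderiv ℝ (uncurry f) (x t, y t) (u, v)
        = D1 f (x t) (y t) * u + D2 f (x t) (y t) * v := by
      have e1 : ((u, v) : ℝ × ℝ) = u • ((1 : ℝ), (0 : ℝ)) + v • ((0 : ℝ), (1 : ℝ)) := by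
        simp
      rw [e1, map_add, map_smul, map_smul]
      simp only [smul_eq_mul, D1, D2]
      ring
    rw [e] at h3
    exact h3
  have hSP : SmoothPeriodic lam := ⟨cl, pl⟩
  have hSPh : SmoothPeriodic (fun x y => lam x y / 2) := by
    refine ⟨cl.div_const 2, fun x y => ?_⟩
    simp only [(pl x y).1, (pl x y).2, and_self]
  have hSP3 : ∀ f : ℝ → ℝ → ℝ, SmoothPeriodic f →
      SmoothPeriodic (fun x y => lam x y ^ 3 * f x y) := by
    intro f hf
    refine ⟨(cl.pow 3).mul hf.1, fun x y => ?_⟩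
    simp only [(pl x y).1, (pl x y).2, (hf.2 x y).1, (hf.2 x y).2, and_self]
  refine ⟨lam, fun x y => lam x y ^ 3 * (6 * M x y + 3 * N x y + 2),
    fun x y => lam x y ^ 3 * (9 * M x y + 9 * N x y + 3),
    fun x y => lam x y ^ 3 * (9 * M x y + 9 * N x y - 3),
    fun x y => lam x y ^ 3 * (3 * M x y + 6 * N x y - 2), ⟨hSP, hSPh, hSP, ?_⟩,
    hSP3 _ ⟨?_, ?_⟩, hSP3 _ ⟨?_, ?_⟩, hSP3 _ ⟨?_, ?_⟩, hSP3 _ ⟨?_, ?_⟩, ?_, ?_, ?_⟩
  · intro x y
    refine ⟨lpos x y, ?_⟩
    have := mul_pos (lpos x y) (lpos x y)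
    nlinarith
  · exact ((contDiff_const.mul cM).add (contDiff_const.mul cN)).add contDiff_const
  · intro x y
    simp only [(pM x y).1, (pM x y).2, (pN x y).1, (pN x y).2, and_self]
  · exact ((contDiff_const.mul cM).add (contDiff_const.mul cN)).add contDiff_const
  · intro x y
    simp only [(pM x y).1, (pM x y).2, (pN x y).1, (pN x y).2, and_self]
  · exact ((contDiff_const.mul cM).add (contDiff_const.mul cN)).sub contDiff_const
  · intro x y
    simp only [(pM x y).1, (pM x y).2, (pN x y).1, (pN x y).2, and_self]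
  · exact ((contDiff_const.mul cM).add (contDiff_const.mul cN)).sub contDiff_const
  · intro x y
    simp only [(pM x y).1, (pM x y).2, (pN x y).1, (pN x y).2, and_self]
  · -- the cubic form vanishes nowhere
    rintro x y ⟨-, h2, h3, -⟩
    have h4 := (lpos x y).ne'
    have h5 : lam x y ^ 3 * 6 = 0 := by
      simp only at h2 h3
      linear_combination h2 - h3
    have h6 : lam x y ^ 3 ≠ 0 := pow_ne_zero 3 h4
    exact h6 (by linarith)
  · -- constancy along geodesics
    intro a b x y u v hgeo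
    set P : ℝ → ℝ := fun s => lam (x s) (y s) * u s + lam (x s) (y s) / 2 * v s with hP
    set Q : ℝ → ℝ := fun s => lam (x s) (y s) / 2 * u s + lam (x s) (y s) * v s with hQ
    set Φ : ℝ → ℝ := fun s => (M (x s) (y s) * P s + N (x s) (y s) * Q s) *
      (P s ^ 2 - P s * Q s + Q s ^ 2) + P s ^ 2 * Q s - P s * Q s ^ 2 with hΦ
    have hΦd : ∀ t ∈ Set.Ioo a b, HasDerivAt Φ 0 t := by
      intro t ht
      obtain ⟨hx, hy, hp, hq⟩ := hgeo t ht
      rw [(L1 (x t) (y t)).deriv, (L1h (x t) (y t)).deriv] at hp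
      rw [(L2 (x t) (y t)).deriv, (L2h (x t) (y t)).deriv] at hq
      have hM' := chain M cM x y (u t) (v t) t hx hy
      have hN' := chain N cN x y (u t) (v t) t hx hy
      have hk := (Kpos (x t) (y t)).ne'
      have hp' : HasDerivAt P (-(2 / 3) * D1 K (x t) (y t) *
          (P t ^ 2 - P t * Q t + Q t ^ 2)) t := by
        refine HasDerivAt.congr_deriv hp ?_
        simp only [hP, hQ, hlam]
        field_simp
        ring
      have hq' : HasDerivAt Q (-(2 / 3) * D2 K (x t) (y t) *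
          (P t ^ 2 - P t * Q t + Q t ^ 2)) t := by
        refine HasDerivAt.congr_deriv hq ?_
        simp only [hP, hQ, hlam]
        field_simp
        ring
      have hu : u t = 2 / 3 * K (x t) (y t) * (2 * P t - Q t) := by
        simp only [hP, hQ, hlam]
        field_simp
        ring
      have hv : v t = 2 / 3 * K (x t) (y t) * (2 * Q t - P t) := by
        simp only [hP, hQ, hlam]
        field_simp
        ring
      have hd := ((((hM'.mul hp').add (hN'.mul hq')).mul
        (((hp'.pow 2).sub (hp'.mul hq')).add (hq'.pow 2))).add ((hp'.pow 2).mul hq')).sub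
        (hp'.mul (hq'.pow 2))
      refine HasDerivAt.congr_deriv hd ?_
      have h := pde (x t) (y t) (P t) (Q t)
      simp only [Pi.mul_apply, Pi.add_apply, Pi.sub_apply, Pi.pow_apply]
      generalize P t = p at *
      generalize Q t = q at *
      rw [hu, hv]
      simp only [Nat.cast_ofNat, Nat.add_one_sub_one, pow_one]
      linear_combination (2 / 3 * (p ^ 2 - p * q + q ^ 2)) * h
    have hconstΦ : ∀ s ∈ Set.Ioo a b, ∀ t ∈ Set.Ioo a b, Φ s = Φ t := by
      intro s hs t ht
      refine isOpen_Ioo.is_const_of_deriv_eq_zero isPreconnected_Ioo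
        (fun r hr => (hΦd r hr).differentiableAt.differentiableWithinAt)
        (fun r hr => (hΦd r hr).deriv) hs ht
    have hΦe : ∀ s, lam (x s) (y s) ^ 3 * (6 * M (x s) (y s) + 3 * N (x s) (y s) + 2) * u s ^ 3 +
        lam (x s) (y s) ^ 3 * (9 * M (x s) (y s) + 9 * N (x s) (y s) + 3) * u s ^ 2 * v s +
        lam (x s) (y s) ^ 3 * (9 * M (x s) (y s) + 9 * N (x s) (y s) - 3) * u s * v s ^ 2 +
        lam (x s) (y s) ^ 3 * (3 * M (x s) (y s) + 6 * N (x s) (y s) - 2) * v s ^ 3 =
        8 * Φ s := by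
      intro s
      simp only [hΦ, hP, hQ]
      ring
    intro s hs t ht
    simp only
    rw [hΦe s, hΦe t, hconstΦ s hs t ht]
  · -- no Killing field
    rintro X Y ⟨⟨cX, pX⟩, ⟨cY, pY⟩, hK3⟩
    have X1 : ∀ x y, HasDerivAt (fun t => X t y) (D1 X x y) x :=
      deriv_fst_of_contDiff top_ne_zero' cX
    have X2 : ∀ x y, HasDerivAt (fun t => X x t) (D2 X x y) y :=
      deriv_snd_of_contDiff top_ne_zero' cX
    have Y1 : ∀ x y, HasDerivAt (fun t => Y t y) (D1 Y x y) x :=
      deriv_fst_of_contDiff top_ne_zero' cY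
    have Y2 : ∀ x y, HasDerivAt (fun t => Y x t) (D2 Y x y) y :=
      deriv_snd_of_contDiff top_ne_zero' cY
    have hk : ∀ x y : ℝ,
        (X x y * (-D1 K x y / K x y ^ 2) + Y x y * (-D2 K x y / K x y ^ 2)
          + 2 * (lam x y * D1 X x y + lam x y / 2 * D1 Y x y) = 0) ∧
        (X x y * (-D1 K x y / K x y ^ 2 / 2) + Y x y * (-D2 K x y / K x y ^ 2 / 2)
          + (lam x y * D2 X x y + lam x y / 2 * D2 Y x y)
          + (lam x y / 2 * D1 X x y + lam x y * D1 Y x y) = 0) ∧
        (X x y * (-D1 K x y / K x y ^ 2) + Y x y * (-D2 K x y / K x y ^ 2)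
          + 2 * (lam x y / 2 * D2 X x y + lam x y * D2 Y x y) = 0) := by
      intro x y
      have h := hK3 x y
      rw [(L1 x y).deriv, (L1h x y).deriv, (L2 x y).deriv, (L2h x y).deriv, (X1 x y).deriv,
        (X2 x y).deriv, (Y1 x y).deriv, (Y2 x y).deriv] at h
      exact h
    have cr : ∀ x y, D2 Y x y = D1 X x y + D1 Y x y ∧ D2 X x y = - D1 Y x y := by
      intro x y
      obtain ⟨l1, l2, l3⟩ := hk x y
      have hl := (lpos x y).ne'
      have m1 : lam x y * (2 * D1 X x y - D2 X x y + D1 Y x y - 2 * D2 Y x y) = 0 := by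
        linear_combination l1 - l3
      have m2 : lam x y * (D1 X x y - 2 * D2 X x y - D1 Y x y - D2 Y x y) = 0 := by
        linear_combination l1 - 2 * l2
      have n1 := (mul_eq_zero.mp m1).resolve_left hl
      have n2 := (mul_eq_zero.mp m2).resolve_left hl
      constructor <;> linarith
    have hconst := const_of_cr cX cY pX pY (fun x y => (cr x y).1) (fun x y => (cr x y).2)
    set c1 := X 0 0 with hc1
    set c2 := Y 0 0 with hc2
    have hzero : ∀ x y, c1 * D1 K x y + c2 * D2 K x y = 0 := by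
      intro x y
      have dx : D1 X x y = 0 := by
        have : HasDerivAt (fun t => X t y) 0 x := by
          have e : (fun t => X t y) = fun _ => c1 := by funext t; exact (hconst t y).1
          rw [e]; exact hasDerivAt_const _ _
        exact (X1 x y).unique this
      have dx2 : D1 Y x y = 0 := by
        have : HasDerivAt (fun t => Y t y) 0 x := by
          have e : (fun t => Y t y) = fun _ => c2 := by funext t; exact (hconst t y).2
          rw [e]; exact hasDerivAt_const _ _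
        exact (Y1 x y).unique this
      have h := (hk x y).1
      rw [dx, dx2, (hconst x y).1, (hconst x y).2] at h
      have hkk := (Kpos x y).ne'
      field_simp at h
      linear_combination -h
    have z2 : c2 = 0 := beam_lemma hg K1 K2 (fun x y hx hy => (EF_beam hg hx hy).1) hzero
    have z1 : c1 = 0 := by
      refine beam_lemma hg (u := fun x y => K y x) (u1 := fun x y => D2 K y x)
        (u2 := fun x y => D1 K y x) (c1 := c2) (c2 := c1) (fun x y => K2 y x) (fun x y => K1 y x)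
        (fun x y hx hy => (EF_beam hg hx hy).2) ?_
      intro x y
      linear_combination hzero y x
    intro x y
    exact ⟨by rw [(hconst x y).1]; exact z1, by rw [(hconst x y).2]; exact z2⟩

end Pool.Agent.Results.MP_43750c_an.VelocityForm
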